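import Pool.Agent.FTU.Stmts
import Pool.Agent.Helper10_MBX.SDY
import Pool.Agent.Helper85_MBX.SDX
import Pool.Agent.Helper64_MBX.SNF
import Pool.Agent.Helper27_MBX.SCL

/-!
# Squad FTU (MP_8cfbae_mp), row TCD: the class `TC` of trial functions
-/

set_option autoImplicit false

open MeasureTheory Complex ProbabilityTheory

namespace Pool.Agent.FTU.H88

open Pool.Agent.FTU
open Pool.Agent.Helper49_Pauli
open Pool.Agent.MBX

variable {ι : Type} [Fintype ι] [DecidableEq ι]

/-- a phase times a function -/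
noncomputable def ph (th : (ι → ℝ) → X3 → ℝ) (g : (ι → ℝ) → X3 → ℂ) : (ι → ℝ) → X3 → ℂ :=
  fun y x => cexp (-(I * (th y x : ℂ))) * g y x

/-- the phase as a complex function -/
def cth (th : (ι → ℝ) → X3 → ℝ) : (ι → ℝ) → X3 → ℂ := fun y x => (th y x : ℂ)

omit [Fintype ι] [DecidableEq ι] in
theorem norm_ph (th : (ι → ℝ) → X3 → ℝ) (g : (ι → ℝ) → X3 → ℂ) (y : ι → ℝ) (x : X3) :
    ‖ph th g y x‖ = ‖g y x‖ := by
  unfold ph
  have h : -(I * (th y x : ℂ)) = ((-(th y x) : ℝ) : ℂ) * I := by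
    push_cast
    ring
  rw [norm_mul, h, Complex.norm_exp_ofReal_mul_I, one_mul]

omit [Fintype ι] [DecidableEq ι] in
theorem tc_mk' {ι : Type} [Fintype ι] [DecidableEq ι] (th : (ι → ℝ) → X3 → ℝ)
    (hth : cth th ∈ PS ι) (G : Fin 2 → (ι → ℝ) → X3 → ℂ) (hG : ∀ s, G s ∈ SS ι)
    (psi : (ι → ℝ) → X3 → S2) (h : ∀ y x s, psi y x s = ph th (G s) y x) : TC psi := by
  refine ⟨th, fun y x s => G s y x, hth, ?_, ?_⟩
  · intro s
    exact hG s
  · funext y x s
    rw [h]
    rfl

theorem ph_dY (hpsa : PsaStmt) (th : (ι → ℝ) → X3 → ℝ) (hth : cth th ∈ PS ι)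
    (g : (ι → ℝ) → X3 → ℂ) (hg : g ∈ SS ι) (i : ι) (y : ι → ℝ) (x : X3) :
    HasDerivAt (fun t : ℝ => ph th g (Function.update y i t) x)
      (ph th (fun y x => dY i g y x - I * (dY i (cth th) y x * g y x)) y x) (y i) := by
  obtain ⟨-, -, -, -, -, h6, -⟩ := hpsa ι
  have h1 := (h6 (cth th) hth i).2 y x
  have h2 := (H10.sdy ι g hg i).2 y x
  have h1' : HasDerivAt (fun t : ℝ => -(I * cth th (Function.update y i t) x))
      (-(I * dY i (cth th) y x)) (y i) := (h1.const_mul I).neg
  have h3 := h1'.cexp.mul h2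
  refine h3.congr_deriv ?_
  simp only [Function.update_eq_self]
  unfold ph cth
  ring

theorem ph_dX (hpsa : PsaStmt) (th : (ι → ℝ) → X3 → ℝ) (hth : cth th ∈ PS ι)
    (g : (ι → ℝ) → X3 → ℂ) (hg : g ∈ SS ι) (j : Fin 3) (y : ι → ℝ) (x : X3) :
    fderiv ℝ (ph th g y) x (Pi.single j 1) =
      ph th (fun y x => dX j g y x - I * (dX j (cth th) y x * g y x)) y x := by
  obtain ⟨-, -, -, -, h5, -⟩ := hpsa ι
  have h1 : HasFDerivAt (cth th y) (fderiv ℝ (cth th y) x) x :=
    ((((h5 (cth th) hth j).1 y).differentiable (by simp)) x).hasFDerivAt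
  have h2 : HasFDerivAt (g y) (fderiv ℝ (g y) x) x :=
    (((H85.csAll g hg y).1.differentiable (by simp)) x).hasFDerivAt
  have h1' : HasFDerivAt (fun x => -(I * cth th y x)) (-(I • fderiv ℝ (cth th y) x)) x :=
    (h1.const_mul I).neg
  have h3 := h1'.cexp.mul h2
  have h4 : HasFDerivAt (ph th g y) _ x := h3
  rw [h4.fderiv]
  simp only [add_apply, smul_apply, neg_apply, smul_eq_mul]
  unfold ph dX cth
  ring

theorem ph_cs (hpsa : PsaStmt) (th : (ι → ℝ) → X3 → ℝ) (hth : cth th ∈ PS ι)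
    (g : (ι → ℝ) → X3 → ℂ) (hg : g ∈ SS ι) (y : ι → ℝ) : CS (ph th g y) := by
  obtain ⟨-, -, -, -, h5, -⟩ := hpsa ι
  have h1 : ContDiff ℝ (⊤ : ℕ∞) (cth th y) := (h5 (cth th) hth 0).1 y
  obtain ⟨h2, h3⟩ := H85.csAll g hg y
  constructor
  · exact ((contDiff_const.mul h1).neg.cexp).mul h2
  · exact h3.mul_left

theorem tcd (hpsa : PsaStmt) : TcdStmt := by
  intro ι _ _ psi hpsi
  obtain ⟨th, F, hth, hF, rfl⟩ := hpsi
  have hth' : cth th ∈ PS ι := hth
  obtain ⟨p1, p2, p3, p4, p5, p6, p7, p8, p9⟩ := hpsa ι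
  have hXs : ∀ (j : Fin 3) (s : Fin 2),
      (fun y x => dX j (fun y x => F y x s) y x -
        I * (dX j (cth th) y x * F y x s)) ∈ SS ι := by
    intro j s
    have a1 := (H85.sdx ι (fun y x => F y x s) (hF s)).2.1 j
    have a2 := p2 _ ((p5 (cth th) hth' j).2) _ (hF s)
    exact Submodule.sub_mem _ a1 (Submodule.smul_mem _ I a2)
  refine ⟨?_, ?_, ?_, ?_, ?_, ?_, ?_, ?_⟩
  · intro y s
    exact ph_cs hpsa th hth' _ (hF s) y
  · intro j
    refine tc_mk' th hth' (fun s y x => dX j (fun y x => F y x s) y x -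
      I * (dX j (cth th) y x * F y x s)) (hXs j) _ ?_
    intro y x s
    exact ph_dX hpsa th hth' _ (hF s) j y x
  · intro i
    have hd : ∀ (y : ι → ℝ) (x : X3) (s : Fin 2),
        dY2 i (fun y x => cexp (-(I * (th y x : ℂ))) • F y x) y x s =
          ph th (fun y x => dY i (fun y x => F y x s) y x -
            I * (dY i (cth th) y x * F y x s)) y x := by
      intro y x s
      exact (ph_dY hpsa th hth' _ (hF s) i y x).deriv
    constructor
    · refine tc_mk' th hth' (fun s y x => dY i (fun y x => F y x s) y x -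
        I * (dY i (cth th) y x * F y x s)) ?_ _ hd
      intro s
      have a1 := (H10.sdy ι (fun y x => F y x s) (hF s) i).1
      have a2 := p2 _ ((p6 (cth th) hth' i).1) _ (hF s)
      exact Submodule.sub_mem _ a1 (Submodule.smul_mem _ I a2)
    · intro y x s
      rw [hd]
      exact ph_dY hpsa th hth' _ (hF s) i y x
  · intro e
    exact tc_mk' (fun y x => th (fun i => y i + e i) x) ((p7 e).1 _ hth')
      (fun s y x => F (fun i => y i + e i) x s) (fun s => (p7 e).2 _ (hF s)) _
      (fun y x s => rfl)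
  · intro a ha
    exact tc_mk' (fun y x => th y (a • x)) ((p8 a ha).1 _ hth')
      (fun s y x => F y (a • x) s) (fun s => (p8 a ha).2 _ (hF s)) _
      (fun y x s => rfl)
  · intro S e
    -- the potential
    have hV : ∀ j : Fin 3, (fun (y : ι → ℝ) (x : X3) =>
        ((S.fld (fun i => y i + e i) x j : ℝ) : ℂ)) ∈ PS ι := by
      intro j
      have a0 : ∀ i : ι, (fun (y : ι → ℝ) (x : X3) => ((y i : ℂ) + (e i : ℂ)) *
          ((S.c i * Real.cos (dot (S.k i) x - S.t i) * S.e i j : ℝ) : ℂ)) ∈ PS ι := by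
        intro i
        refine p1 (fun (y : ι → ℝ) (_ : X3) => (y i : ℂ) + (e i : ℂ)) ?_
          (fun (_ : ι → ℝ) (x : X3) =>
            ((S.c i * Real.cos (dot (S.k i) x - S.t i) * S.e i j : ℝ) : ℂ)) ?_
        · exact Submodule.add_mem _ (p4 i) (p3 (fun _ => (e i : ℂ)) contDiff_const)
        · refine p3 (fun x => ((S.c i * Real.cos (dot (S.k i) x - S.t i) * S.e i j : ℝ) : ℂ)) ?_
          have hc : ContDiff ℝ (⊤ : ℕ∞)
              (fun x : X3 => S.c i * Real.cos (dot (S.k i) x - S.t i) * S.e i j) := by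
            unfold dot
            fun_prop
          exact Complex.ofRealCLM.contDiff.comp hc
      have a1 := Submodule.sum_mem (PS ι) (fun i (_ : i ∈ Finset.univ) => a0 i)
      have a2 : (fun (y : ι → ℝ) (x : X3) => ((S.fld (fun i => y i + e i) x j : ℝ) : ℂ)) =
          ∑ i, (fun (y : ι → ℝ) (x : X3) => ((y i : ℂ) + (e i : ℂ)) *
          ((S.c i * Real.cos (dot (S.k i) x - S.t i) * S.e i j : ℝ) : ℂ)) := by
        funext y x
        rw [Finset.sum_apply, Finset.sum_apply]
        unfold Sys.fld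
        push_cast
        rfl
      rw [a2]
      exact a1
    -- the covariant derivatives without the phase
    obtain ⟨w, hw⟩ : ∃ w : Fin 3 → Fin 2 → (ι → ℝ) → X3 → ℂ, w = fun j s y x =>
      -I * (dX j (fun y x => F y x s) y x - I * (dX j (cth th) y x * F y x s)) +
        ((S.fld (fun i => y i + e i) x j : ℝ) : ℂ) * F y x s := ⟨_, rfl⟩
    have hwS : ∀ j s, w j s ∈ SS ι := by
      intro j s
      rw [hw]
      exact Submodule.add_mem _ (Submodule.smul_mem _ (-I) (hXs j s)) (p2 _ (hV j) _ (hF s))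
    have hcov : ∀ (y : ι → ℝ) (x : X3) (j : Fin 3),
        cov (S.fld fun i => y i + e i) j (fun x => cexp (-(I * (th y x : ℂ))) • F y x) x =
          fun s => cexp (-(I * (th y x : ℂ))) * w j s y x := by
      intro y x j
      funext s
      have h1 := ph_dX hpsa th hth' _ (hF s) j y x
      have h2 : cov (S.fld fun i => y i + e i) j (fun x => cexp (-(I * (th y x : ℂ))) • F y x) x s
          = -I * fderiv ℝ (ph th (fun y x => F y x s) y) x (Pi.single j 1) +
            ((S.fld (fun i => y i + e i) x j : ℝ) : ℂ) * ph th (fun y x => F y x s) y x := rfl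
      rw [h2, h1, hw]
      simp only [ph]
      ring
    refine tc_mk' th hth' ![fun y x => w 0 1 y x + -I * w 1 1 y x + w 2 0 y x,
      fun y x => w 0 0 y x + I * w 1 0 y x + -w 2 1 y x] ?_ _ ?_
    · intro s
      fin_cases s
      · exact Submodule.add_mem _ (Submodule.add_mem _ (hwS 0 1)
          (Submodule.smul_mem _ (-I) (hwS 1 1))) (hwS 2 0)
      · exact Submodule.add_mem _ (Submodule.add_mem _ (hwS 0 0)
          (Submodule.smul_mem _ I (hwS 1 0))) (Submodule.neg_mem _ (hwS 2 1))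
    · intro y x s
      show dop (S.fld fun i => y i + e i)
        (fun x => cexp (-(I * (th y x : ℂ))) • F y x) x s = _
      unfold dop
      rw [Fin.sum_univ_three, sg_zero, sg_one, sg_two, hcov, hcov, hcov]
      fin_cases s
      · simp [ph]
        ring
      · simp [ph]
        ring
  · have c1 : Continuous fun z : (ι → ℝ) × X3 => cth th z.1 z.2 := (p9 _ hth').1
    refine continuous_pi ?_
    intro s
    have c2 := (H64.nfcx_of_mem _ (hF s)).1
    have c3 : Continuous fun z : (ι → ℝ) × X3 => cexp (-(I * cth th z.1 z.2)) * F z.1 z.2 s :=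
      (Complex.continuous_exp.comp (continuous_const.mul c1).neg).mul c2
    exact c3
  · obtain ⟨-, C0, m0, R0, hC0, h0⟩ := H64.nfcx_of_mem _ (hF 0)
    obtain ⟨-, C1, m1, R1, hC1, h1⟩ := H64.nfcx_of_mem _ (hF 1)
    refine ⟨C0 + C1, max m0 m1, max R0 R1, add_nonneg hC0 hC1, ?_⟩
    intro y x
    have b0 := Pool.Agent.Loc.prod_mono (le_max_left m0 m1) y
    have b1 := Pool.Agent.Loc.prod_mono (le_max_right m0 m1) y
    have b2 := H64.prod_nonneg' (max m0 m1) y
    constructor
    · intro s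
      show ‖ph th (fun y x => F y x s) y x‖ ≤ _
      rw [norm_ph]
      fin_cases s
      · have h2 := ((h0 y x).1).trans (mul_le_mul_of_nonneg_left b0 hC0)
        have h3 : 0 ≤ C1 * ∏ i, (1 + |y i|) ^ (max m0 m1) := mul_nonneg hC1 b2
        calc _ ≤ _ := h2
          _ ≤ _ := by rw [add_mul]; linarith
      · have h2 := ((h1 y x).1).trans (mul_le_mul_of_nonneg_left b1 hC1)
        have h3 : 0 ≤ C0 * ∏ i, (1 + |y i|) ^ (max m0 m1) := mul_nonneg hC0 b2
        calc _ ≤ _ := h2
          _ ≤ _ := by rw [add_mul]; linarith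
    · intro hR
      have e0 : F y x 0 = 0 := (h0 y x).2 ((le_max_left _ _).trans hR)
      have e1 : F y x 1 = 0 := (h1 y x).2 ((le_max_right _ _).trans hR)
      funext s
      show ph th (fun y x => F y x s) y x = 0
      unfold ph
      fin_cases s
      · show _ * F y x 0 = 0
        rw [e0, mul_zero]
      · show _ * F y x 1 = 0
        rw [e1, mul_zero]

end Pool.Agent.FTU.H88
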